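import Pool.Agent.H174.GM.Stmts

set_option autoImplicit false

/-!
# Project GM: the part P6 (`psi` at last variable zero)
-/

namespace Pool.Agent.H399.GM174

open Finset Pool.Agent.H174.GM

section perm

variable {k : ℕ}

/-- extend a permutation by a fixed last point -/
def exq (e : Equiv.Perm (Fin k)) : Equiv.Perm (Fin (k + 1)) :=
  finSuccEquivLast.symm.permCongr (Equiv.optionCongr e)

lemma exq_castSucc (e : Equiv.Perm (Fin k)) (j : Fin k) : exq e j.castSucc = (e j).castSucc := by
  unfold exq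
  rw [Equiv.permCongr_apply, Equiv.symm_symm, finSuccEquivLast_castSucc, Equiv.optionCongr_apply,
    Option.map_some, finSuccEquivLast_symm_some]

lemma exq_last (e : Equiv.Perm (Fin k)) : exq e (Fin.last k) = Fin.last k := by
  unfold exq
  rw [Equiv.permCongr_apply, Equiv.symm_symm, finSuccEquivLast_last, Equiv.optionCongr_apply,
    Option.map_none, finSuccEquivLast_symm_none]

lemma sign_exq (e : Equiv.Perm (Fin k)) : Equiv.Perm.sign (exq e) = Equiv.Perm.sign e := by
  unfold exq
  rw [Equiv.Perm.sign_permCongr, Equiv.optionCongr_sign]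

/-- the cycle which moves position `i` to the last position -/
def cyq (i : Fin (k + 1)) : Equiv.Perm (Fin (k + 1)) := (Fin.cycleIcc i (Fin.last k))⁻¹

lemma cyc_castSucc (i : Fin (k + 1)) (j : Fin k) :
    Fin.cycleIcc i (Fin.last k) j.castSucc = i.succAbove j := by
  rcases lt_or_ge j.castSucc i with h | h
  · rw [Fin.cycleIcc_of_lt h, Fin.succAbove_of_castSucc_lt i j h]
  · rw [Fin.cycleIcc_of_ge_of_lt h (Fin.castSucc_lt_last j), Fin.succAbove_of_le_castSucc i j h,
      Fin.coeSucc_eq_succ]

lemma cyq_self (i : Fin (k + 1)) : cyq i i = Fin.last k := by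
  unfold cyq
  rw [Equiv.Perm.inv_eq_iff_eq]
  exact (Fin.cycleIcc_of_last (Fin.le_last i)).symm

lemma cyq_succAbove (i : Fin (k + 1)) (j : Fin k) : cyq i (i.succAbove j) = j.castSucc := by
  unfold cyq
  rw [Equiv.Perm.inv_eq_iff_eq]
  exact (cyc_castSucc i j).symm

lemma sign_cyq (i : Fin (k + 1)) : Equiv.Perm.sign (cyq i) = (-1) ^ (k - i.1) := by
  unfold cyq
  rw [Equiv.Perm.sign_inv, Fin.sign_cycleIcc_of_le (Fin.le_last i), Fin.val_last]

lemma bij_q : Function.Bijective
    (fun p : Fin (k + 1) × Equiv.Perm (Fin k) => exq p.2 * cyq p.1) := by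
  rw [Fintype.bijective_iff_injective_and_card]
  constructor
  · rintro ⟨i, e⟩ ⟨i', e'⟩ h
    simp only at h
    have hi : i = i' := by
      have h1 : (exq e * cyq i) i = Fin.last k := by
        rw [Equiv.Perm.mul_apply, cyq_self, exq_last]
      have h2 : (exq e' * cyq i') i' = Fin.last k := by
        rw [Equiv.Perm.mul_apply, cyq_self, exq_last]
      rw [← h] at h2
      exact (exq e * cyq i).injective (h1.trans h2.symm)
    subst hi
    have h3 : exq e = exq e' := mul_right_cancel h
    have h4 : e = e' := by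
      ext j
      have h5 : exq e j.castSucc = exq e' j.castSucc := by rw [h3]
      rw [exq_castSucc, exq_castSucc] at h5
      exact congrArg Fin.val (Fin.castSucc_injective k h5)
    rw [h4]
  · rw [Fintype.card_prod, Fintype.card_perm, Fintype.card_perm, Fintype.card_fin,
      Fintype.card_fin, Nat.factorial_succ]

lemma sum_perm_q {M : Type} [AddCommMonoid M] (F : Equiv.Perm (Fin (k + 1)) → M) :
    ∑ σ, F σ = ∑ i : Fin (k + 1), ∑ e : Equiv.Perm (Fin k), F (exq e * cyq i) := by
  rw [← Function.Bijective.sum_comp bij_q F, Fintype.sum_prod_type]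

end perm

section

variable {R : Type} [CommRing R] {k : ℕ}

lemma cc_eq (Y : Fin k → R) :
    cc Y = ∏ p, ∏ q, if p < q then mm (uu (Y p)) (Y q) else 1 := by
  unfold cc pairs
  rw [Finset.prod_filter, ← Finset.univ_product_univ, Finset.prod_product]

lemma cc_insertNth (i : Fin (k + 1)) (W : Fin k → R) :
    cc (Fin.insertNth (α := fun _ => R) i 1 W) =
      (∏ j : Fin k, if j.1 < i.1 then 1 else W j) * cc W := by
  rw [cc_eq, cc_eq, Fin.prod_univ_succAbove _ i]
  congr 1
  · rw [Fin.prod_univ_succAbove _ i, if_neg (lt_irrefl i), one_mul]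
    refine Finset.prod_congr rfl fun j _ => ?_
    rw [Fin.insertNth_apply_same, Fin.insertNth_apply_succAbove]
    by_cases h : j.1 < i.1
    · rw [if_pos h, if_neg]
      have h1 : j.castSucc < i := h
      rw [Fin.succAbove_of_castSucc_lt i j h1]
      exact not_lt.2 h1.le
    · rw [if_neg h, if_pos]
      · unfold mm uu
        ring
      · have h1 : i ≤ j.castSucc := not_lt.1 h
        rw [Fin.succAbove_of_le_castSucc i j h1]
        exact lt_of_le_of_lt h1 (Fin.castSucc_lt_succ)
  · refine Finset.prod_congr rfl fun p _ => ?_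
    rw [Fin.prod_univ_succAbove _ i]
    have h1 : (if i.succAbove p < i then
        mm (uu (Fin.insertNth (α := fun _ => R) i 1 W (i.succAbove p)))
          (Fin.insertNth (α := fun _ => R) i 1 W i) else 1) = (1 : R) := by
      rw [Fin.insertNth_apply_same]
      split_ifs
      · unfold mm
        ring
      · rfl
    rw [h1, one_mul]
    refine Finset.prod_congr rfl fun q _ => ?_
    rw [Fin.insertNth_apply_succAbove, Fin.insertNth_apply_succAbove]
    by_cases h : p < q
    · rw [if_pos h, if_pos (Fin.succAbove_lt_succAbove_iff.2 h)]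
    · rw [if_neg h, if_neg (fun h2 => h (Fin.succAbove_lt_succAbove_iff.1 h2))]

lemma ff_insertNth (a : Fin (k + 1) → ℕ) (i : Fin (k + 1)) (W : Fin k → R) :
    ff a (Fin.insertNth (α := fun _ => R) i 1 W) = ff (cut i a) W := by
  unfold ff
  rw [cc_insertNth, ← mul_assoc]
  congr 1
  rw [Fin.prod_univ_succAbove _ i, Fin.insertNth_apply_same, one_pow, one_mul,
    ← Finset.prod_mul_distrib]
  refine Finset.prod_congr rfl fun j _ => ?_
  rw [Fin.insertNth_apply_succAbove]
  unfold cut
  by_cases h : j.1 < i.1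
  · have h1 : j.castSucc < i := h
    rw [if_pos h, if_pos h, Fin.succAbove_of_castSucc_lt i j h1, mul_one]
  · have h1 : i ≤ j.castSucc := not_lt.1 h
    rw [if_neg h, if_neg h, Fin.succAbove_of_le_castSucc i j h1, pow_succ]

omit [CommRing R] in
lemma snoc_comp (Y : Fin k → R) (z : R) (i : Fin (k + 1)) (e : Equiv.Perm (Fin k)) :
    (Fin.snoc (α := fun _ => R) Y z : Fin (k + 1) → R) ∘ (exq e * cyq i) =
      Fin.insertNth (α := fun _ => R) i z (Y ∘ e) := by
  funext j
  rw [Function.comp_apply, Equiv.Perm.mul_apply]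
  rcases Fin.eq_self_or_eq_succAbove i j with h | ⟨j', h⟩
  · rw [h, cyq_self, exq_last, Fin.insertNth_apply_same, Fin.snoc_last]
  · rw [h, cyq_succAbove, exq_castSucc, Fin.insertNth_apply_succAbove, Fin.snoc_castSucc,
      Function.comp_apply]

/-- last variable equal to one -/
lemma aa_snoc_one (a : Fin (k + 1) → ℕ) (Y : Fin k → R) :
    aa a (Fin.snoc (α := fun _ => R) Y 1 : Fin (k + 1) → R) =
      ∑ i : Fin (k + 1), ((-1 : ℤ) ^ (k - i.1)) • aa (cut i a) Y := by
  unfold aa
  rw [sum_perm_q]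
  refine Finset.sum_congr rfl fun i _ => ?_
  rw [Finset.smul_sum]
  refine Finset.sum_congr rfl fun e _ => ?_
  rw [snoc_comp, ff_insertNth, smul_smul]
  congr 1
  rw [Equiv.Perm.sign_mul, sign_exq, sign_cyq]
  push_cast
  ring

/-- last variable equal to zero -/
lemma aa_snoc_zero (a : Fin (k + 1) → ℕ) (ha : ∀ i, a i ≠ 0) (Y : Fin k → R) :
    aa a (Fin.snoc (α := fun _ => R) Y 0 : Fin (k + 1) → R) = 0 := by
  unfold aa
  rw [sum_perm_q]
  refine Finset.sum_eq_zero fun i _ => Finset.sum_eq_zero fun e _ => ?_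
  rw [snoc_comp]
  have h : ff a (Fin.insertNth (α := fun _ => R) i 0 (Y ∘ e)) = 0 := by
    unfold ff
    rw [Finset.prod_eq_zero (Finset.mem_univ i), zero_mul]
    rw [Fin.insertNth_apply_same, zero_pow (ha i)]
  rw [h, smul_zero]

lemma uu_flp (ε : Fin k → Bool) (X : Fin k → R) (i : Fin k) : uu (flp ε X i) = uu (X i) := by
  unfold flp uu
  split_ifs
  · ring
  · rfl

lemma prod_one_sub_mul_aa (a : Fin k → ℕ) (ha : ∀ i, 1 ≤ a i) (Y : Fin k → R) :
    (∏ i, (1 - Y i)) * aa a Y = (∏ i, uu (Y i)) * aa (fun i => a i - 1) Y := by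
  unfold aa
  rw [Finset.mul_sum, Finset.mul_sum]
  refine Finset.sum_congr rfl fun σ _ => ?_
  rw [mul_smul_comm, mul_smul_comm]
  congr 1
  unfold ff
  have h1 : ∏ i, (Y ∘ σ) i ^ a i = (∏ i, Y i) * ∏ i, (Y ∘ σ) i ^ (a i - 1) := by
    rw [← Equiv.prod_comp σ Y, ← Finset.prod_mul_distrib]
    refine Finset.prod_congr rfl fun i _ => ?_
    rw [Function.comp_apply, ← pow_succ', Nat.sub_add_cancel (ha i)]
  have h2 : ∏ i, uu (Y i) = (∏ i, (1 - Y i)) * ∏ i, Y i := by
    rw [← Finset.prod_mul_distrib]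
    refine Finset.prod_congr rfl fun i _ => ?_
    unfold uu
    ring
  rw [h1, h2]
  ring

lemma flp_snoc (ε : Fin k → Bool) (b : Bool) (X : Fin k → R) :
    flp (Fin.snoc (α := fun _ => Bool) ε b : Fin (k + 1) → Bool)
      (Fin.snoc (α := fun _ => R) X 0 : Fin (k + 1) → R) =
    Fin.snoc (α := fun _ => R) (flp ε X) (if b then 1 else 0) := by
  funext j
  unfold flp
  refine Fin.lastCases ?_ (fun j => ?_) j
  · rw [Fin.snoc_last, Fin.snoc_last, Fin.snoc_last, sub_zero]
  · rw [Fin.snoc_castSucc, Fin.snoc_castSucc, Fin.snoc_castSucc]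

lemma sg_snoc (ε : Fin k → Bool) (b : Bool) :
    sg (Fin.snoc (α := fun _ => Bool) ε b : Fin (k + 1) → Bool) =
      sg ε * (if b then -1 else 1) := by
  unfold sg
  rw [Fin.prod_univ_castSucc, Fin.snoc_last]
  congr 1
  refine Finset.prod_congr rfl fun i _ => ?_
  rw [Fin.snoc_castSucc]

lemma sum_bool_q {M : Type} [AddCommMonoid M] (F : (Fin (k + 1) → Bool) → M) :
    ∑ ε, F ε = ∑ ε : Fin k → Bool, (F (Fin.snoc (α := fun _ => Bool) ε true) +
      F (Fin.snoc (α := fun _ => Bool) ε false)) := by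
  rw [← Equiv.sum_comp (Fin.snocEquiv (fun _ => Bool)) F, Fintype.sum_prod_type_right]
  refine Finset.sum_congr rfl fun ε _ => ?_
  rw [Fintype.sum_bool]
  rfl

lemma st_succ_mono (k : ℕ) : StrictMono (st k) := by
  intro i j h
  unfold st
  have : i.1 < j.1 := h
  omega

end

theorem p6 (h1 : S_R3) (h2 : S_REF) (h3 : S_PERM) : S_P6 := by
  intro R _ k X
  have e1 : psi (Fin.snoc (α := fun _ => R) X 0 : Fin (k + 1) → R) =
      -∑ ε : Fin k → Bool, sg ε •
        ∑ i : Fin (k + 1), ((-1 : ℤ) ^ (k - i.1)) • aa (cut i (st (k + 1))) (flp ε X) := by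
    unfold psi br
    rw [sum_bool_q, ← Finset.sum_neg_distrib]
    refine Finset.sum_congr rfl fun ε _ => ?_
    rw [flp_snoc, flp_snoc, sg_snoc, sg_snoc]
    simp only [if_true, Bool.false_eq_true, if_false, mul_one, mul_neg]
    rw [aa_snoc_one, aa_snoc_zero _ (fun i => by unfold st; omega), smul_zero, add_zero, neg_smul]
  have e2 : ∀ ε : Fin k → Bool,
      ∑ i : Fin (k + 1), ((-1 : ℤ) ^ (k - i.1)) • aa (cut i (st (k + 1))) (flp ε X) =
        (∏ i, uu (X i)) * ∑ l ∈ inter (st (k + 1)), aa (fun i => l i - 1) (flp ε X) := by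
    intro ε
    rw [← h1 R k (flp ε X) (st (k + 1)) (st_succ_mono _), Finset.mul_sum, Finset.mul_sum]
    refine Finset.sum_congr rfl fun l hl => ?_
    rw [prod_one_sub_mul_aa l]
    · congr 1
      exact Finset.prod_congr rfl fun i _ => uu_flp ε X i
    · intro i
      unfold inter at hl
      rw [mem_filter, Fintype.mem_piFinset] at hl
      have h4 := (mem_Icc.1 (hl.1 i)).1
      unfold st at h4
      omega
  have e3 : psi (Fin.snoc (α := fun _ => R) X 0 : Fin (k + 1) → R) =
      -((∏ i, uu (X i)) * ∑ l ∈ inter (st (k + 1)), br (fun i => l i - 1) X) := by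
    rw [e1]
    congr 1
    unfold br
    rw [Finset.sum_comm, Finset.mul_sum]
    refine Finset.sum_congr rfl fun ε _ => ?_
    rw [e2 ε, ← Finset.smul_sum, mul_smul_comm]
  rw [e3]
  congr 2
  unfold psi
  rw [Finset.sum_eq_single (fun j : Fin k => j.1 + 2)]
  · rfl
  · intro l hl hne
    unfold inter at hl
    rw [mem_filter, Fintype.mem_piFinset] at hl
    rcases Nat.eq_zero_or_pos k with hk | hk
    · exfalso
      apply hne
      funext j
      have := j.2
      omega
    · apply h2 R k hk X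
      by_contra hcon
      apply hne
      have h5 : ∀ n : ℕ, ∀ hn : n < k, n + 2 ≤ l ⟨n, hn⟩ := by
        intro n
        induction n with
        | zero =>
          intro hn
          omega
        | succ n ih =>
          intro hn
          have h6 := ih (by omega)
          have h7 := hl.2 ⟨n, by omega⟩ ⟨n + 1, hn⟩ (by
            rw [Fin.lt_def]
            simp)
          omega
      funext j
      have h8 := h5 j.1 j.2
      have h9 := (mem_Icc.1 (hl.1 j)).2
      unfold st at h9
      rw [Fin.val_succ] at h9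
      have h10 : l j = l ⟨j.1, j.2⟩ := rfl
      omega
  · intro h
    exfalso
    apply h
    unfold inter
    rw [mem_filter, Fintype.mem_piFinset]
    refine ⟨fun j => ?_, fun i j hij => ?_⟩
    · rw [mem_Icc]
      unfold st
      rw [Fin.val_castSucc, Fin.val_succ]
      omega
    · have : i.1 < j.1 := hij
      change i.1 + 2 < j.1 + 2
      omega

end Pool.Agent.H399.GM174
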