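import Pool.Agent.H174.GM.Stmts

set_option autoImplicit false

/-!
# Project GM: the part R3 (Bethe summation formula)
-/

namespace Pool.Agent.H399.GM174

open Finset Pool.Agent.H174.GM

section

variable {R : Type} [CommRing R] {k : ℕ}

lemma sum_subsets (Y : Fin k → R) :
    ∑ T : Finset (Fin k), ((-1 : R) ^ T.card) * ∏ i ∈ T, Y i = ∏ i, (1 - Y i) := by
  have h1 : ∀ i : Fin k, 1 - Y i = 1 + (-Y i) := fun i => sub_eq_add_neg _ _
  rw [Finset.prod_congr rfl fun i _ => h1 i, Finset.prod_one_add, Finset.powerset_univ]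
  refine Finset.sum_congr rfl fun T _ => ?_
  rw [Finset.prod_neg]

lemma ff_shift (l : Fin k → ℕ) (T : Finset (Fin k)) (Y : Fin k → R) :
    ff (fun i => l i + if i ∈ T then 1 else 0) Y = (∏ i ∈ T, Y i) * ff l Y := by
  unfold ff
  have h1 : ∏ i, Y i ^ (l i + if i ∈ T then 1 else 0) = (∏ i, Y i ^ l i) * ∏ i ∈ T, Y i := by
    simp only [pow_add]
    rw [Finset.prod_mul_distrib]
    congr 1
    have h2 : ∀ i : Fin k, Y i ^ (if i ∈ T then 1 else 0) = if i ∈ T then Y i else 1 := by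
      intro i
      by_cases hi : i ∈ T
      · rw [if_pos hi, if_pos hi, pow_one]
      · rw [if_neg hi, if_neg hi, pow_zero]
    rw [Finset.prod_congr rfl fun i _ => h2 i, Finset.prod_ite_mem, Finset.univ_inter]
  rw [h1]
  ring

lemma sum_shift (l : Fin k → ℕ) (X : Fin k → R) :
    ∑ T : Finset (Fin k), ((-1 : ℤ) ^ T.card) • aa (fun i => l i + if i ∈ T then 1 else 0) X =
      (∏ i, (1 - X i)) * aa l X := by
  unfold aa
  simp only [ff_shift, Finset.smul_sum, Finset.mul_sum]
  rw [Finset.sum_comm]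
  refine Finset.sum_congr rfl fun σ _ => ?_
  have h1 : ∏ i, (1 - X i) = ∏ i, (1 - (X ∘ σ) i) :=
    (Equiv.prod_comp σ (fun i => 1 - X i)).symm
  rw [h1, ← sum_subsets (X ∘ σ), Finset.sum_mul]
  refine Finset.sum_congr rfl fun T _ => ?_
  simp only [zsmul_eq_mul]
  push_cast
  ring

end

theorem r3 (h1 : S_R3ABS) (h2 : S_STAR) : S_R3 := by
  intro R _ k X kk hkk
  have h3 := h1 R k (fun a => aa a X) (fun a i j hij ha => h2 R k X a i j hij ha) kk hkk
  rw [← h3, Finset.mul_sum]
  refine Finset.sum_congr rfl fun l _ => ?_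
  rw [sum_shift]

end Pool.Agent.H399.GM174
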